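import Mathlib
import Pool.Agent.Helper650.APDefs
import Pool.Agent.Helper650.AP6

set_option autoImplicit false

namespace Pool.Agent.Results.MP_0187d8_co.LowerBound

open Pool.Agent.Helper650.AltPath

/-- There is a constant `c > 0` such that, for every `n ≥ 2`, every collection of `n` pairwise
disjoint segments in general position admits a simple noncrossing alternating path of length at
least `c √(n / log n)`; in particular `f n ≥ c √(n / log n)`. -/
theorem result : ∃ c : ℝ, 0 < c ∧ ∀ n : ℕ, 2 ≤ n →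
    (∀ p : Fin n → Bool → ℝ × ℝ, DisjointGenPos p →
      ∃ (ℓ : ℕ) (v : ℕ → ℝ × ℝ), IsAltPath p ℓ v ∧
        c * Real.sqrt ((n : ℝ) / Real.log n) ≤ (ℓ : ℝ)) ∧
    c * Real.sqrt ((n : ℝ) / Real.log n) ≤ (f n : ℝ) :=
  ⟨1 / 200, by norm_num, fun _ hn =>
    ⟨fun _ hp => Pool.Agent.Helper650.AP.long_path hn hp, Pool.Agent.Helper650.AP.lower hn⟩⟩

end Pool.Agent.Results.MP_0187d8_co.LowerBound
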